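import Mathlib
import Pool.Agent.H26.SP0

set_option autoImplicit false

open Filter Topology Ordinal Set

namespace Pool.Agent.Results.MP_6ed805_an.Proof

open H26 SP0

abbrev K (α : ℕ) : Type 1 := Icc (1 : Ordinal.{0}) (ω ^ α)

def Q {Y : Type*} [TopologicalSpace Y] : ℕ → Y → Set Y → Prop
  | 0, y, L => L = {y}
  | n + 1, y, L => ∃ M : ℕ → Set Y, (∀ j, ∃ z, Q n z (M j)) ∧ (∀ U ∈ 𝓝 y, ∀ᶠ j in atTop, M j ⊆ U) ∧
      L = insert y (⋃ j, M j)

section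
variable {Y Z : Type*} [TopologicalSpace Y] [TopologicalSpace Z]

lemma Q.single (n : ℕ) (y : Y) : Q n y {y} := by
  induction n with
  | zero => rfl
  | succ n ih =>
    exact ⟨fun _ => {y}, fun _ => ⟨y, ih⟩, fun U hU => .of_forall fun _ =>
      singleton_subset_iff.2 (mem_of_mem_nhds hU), by simp [iUnion_const]⟩

lemma Q.mem {n : ℕ} {y : Y} {L : Set Y} (h : Q n y L) : y ∈ L := by
  cases n with
  | zero => exact h.symm ▸ rfl
  | succ n => obtain ⟨M, -, -, rfl⟩ := h; exact mem_insert _ _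

lemma Q.mk {n : ℕ} {y : Y} {ι : Type} [Countable ι] (M : ι → Set Y) (h1 : ∀ i, ∃ z, Q n z (M i))
    (h2 : ∀ U ∈ 𝓝 y, {i | ¬ M i ⊆ U}.Finite) : Q (n + 1) y (insert y (⋃ i, M i)) := by
  obtain ⟨e, he⟩ := exists_injective_nat ι
  have h3 : ∀ j, (∃ i, e i = j ∧ e.extend M (fun _ => {y}) j = M i) ∨ e.extend M (fun _ => {y}) j = {y} :=
    fun j => (em (∃ i, e i = j)).imp (fun ⟨i, h⟩ => ⟨i, h, h ▸ he.extend_apply _ _ i⟩)
      (Function.extend_apply' _ _ _)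
  refine ⟨e.extend M fun _ => {y}, fun j => ?_, fun U hU => ?_, subset_antisymm (insert_subset_insert
    (iUnion_subset fun i => subset_iUnion_of_subset (e i) (he.extend_apply _ _ i).ge))
    (insert_subset (mem_insert _ _) (iUnion_subset fun j => ?_))⟩
  · rcases h3 j with ⟨i, -, h⟩ | h <;> rw [h]
    exacts [h1 i, ⟨y, Q.single n y⟩]
  · rw [← Nat.cofinite_eq_atTop]
    refine ((h2 U hU).image e).subset fun j hj => ?_
    rcases h3 j with ⟨i, rfl, h⟩ | h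
    exacts [⟨i, fun h' => hj (h.le.trans h'), rfl⟩,
      absurd (h.le.trans (singleton_subset_iff.2 (mem_of_mem_nhds hU))) hj]
  · rcases h3 j with ⟨i, -, h⟩ | h <;> rw [h]
    exacts [(subset_iUnion M i).trans (subset_insert _ _), singleton_subset_iff.2 (mem_insert _ _)]

lemma Q.ins {n : ℕ} {z : Y} {L : Set Y} (h : Q n z L) (y : Y) : Q (n + 1) y (insert y L) := by
  simpa [iUnion_const] using Q.mk (y := y) (fun _ : Unit => L) (fun _ => ⟨z, h⟩) fun _ _ => toFinite _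

lemma Q.le {n m : ℕ} {y : Y} {L : Set Y} (h : Q n y L) (hm : n ≤ m) : Q m y L := by
  induction m, hm using Nat.le_induction with
  | base => exact h
  | succ m _ ih => exact insert_eq_of_mem h.mem ▸ ih.ins y

lemma Q.iUnion {n : ℕ} {y : Y} {ι : Type} [Countable ι] (M : ι → Set Y) (h1 : ∀ i, Q (n + 1) y (M i))
    (h2 : ∀ U ∈ 𝓝 y, {i | ¬ M i ⊆ U}.Finite) : Q (n + 1) y (insert y (⋃ i, M i)) := by
  choose N n1 n2 n3 using h1
  have := Q.mk (y := y) (fun p : ι × ℕ => N p.1 p.2) (fun p => n1 _ _) fun U hU =>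
    ((h2 U hU).biUnion fun i _ => ((Nat.cofinite_eq_atTop ▸ n2 i U hU : ∀ᶠ j in cofinite,
      N i j ⊆ U).image (i, ·))).subset fun p hp => mem_biUnion (x := p.1) (fun h => hp
        (((subset_iUnion _ p.2).trans (subset_insert y _)).trans (n3 _ ▸ h))) ⟨p.2, hp, rfl⟩
  convert this using 1
  ext x
  simp only [n3, mem_insert_iff, mem_iUnion, Prod.exists]
  exact ⟨fun h => h.elim .inl fun ⟨i, h⟩ => h.imp_right fun h => ⟨i, h⟩,
    Or.imp_right fun ⟨i, h⟩ => ⟨i, .inr h⟩⟩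

lemma Q.union {n : ℕ} {y : Y} {L L' : Set Y} (h : Q (n + 1) y L) (h' : Q (n + 1) y L') :
    Q (n + 1) y (L ∪ L') := by
  have := Q.iUnion (y := y) (fun c : Bool => cond c L L') (fun c => by cases c <;> assumption)
    fun _ _ => toFinite _
  rwa [← union_eq_iUnion, insert_eq_of_mem (mem_union_left _ h.mem)] at this

lemma Q.add {n : ℕ} {y z : Y} {L L' : Set Y} (h : Q (n + 1) y L) (h' : Q n z L') :
    Q (n + 1) y (L ∪ L') := by
  simpa [insert_eq_of_mem (mem_union_left L' h.mem)] using h.union (h'.ins y)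

lemma Q.image {φ : Y → Z} (hφ : Continuous φ) {n : ℕ} :
    ∀ {y : Y} {L : Set Y}, Q n y L → Q n (φ y) (φ '' L) := by
  induction n with
  | zero => rintro y _ rfl; exact image_singleton
  | succ n ih =>
    rintro y _ ⟨M, h1, h2, rfl⟩
    exact ⟨fun j => φ '' M j, fun j => (h1 j).elim fun z hz => ⟨_, ih hz⟩, fun U hU =>
      (h2 _ (hφ.tendsto y hU)).mono fun _ => image_subset_iff.2, by rw [image_insert_eq, image_iUnion]⟩

lemma Q.prod (a : ℕ) : ∀ (c : ℕ) {y : Y} {z : Z} {L : Set Y} {L' : Set Z}, Q a y L → Q c z L' →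
    Q (a + c) (y, z) (L ×ˢ L') := by
  induction a with
  | zero =>
    rintro c y z _ L' rfl h
    rw [zero_add, singleton_prod]
    exact h.image (Continuous.prodMk_right y)
  | succ a iha =>
    intro c
    induction c with
    | zero =>
      rintro y z L _ h rfl
      rw [prod_singleton]
      exact h.image (Continuous.prodMk_left z)
    | succ c ihc =>
      rintro y z _ _ ⟨M, h1, h2, rfl⟩ ⟨N, h3, h4, rfl⟩
      have t1 : ∀ j, Q (a + 1) y (insert y (⋃ i, M (i + j))) := fun j =>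
        ⟨_, fun _ => h1 _, fun U hU => (tendsto_add_atTop_nat j).eventually (h2 U hU), rfl⟩
      have t2 : ∀ j, Q (c + 1) z (insert z (⋃ i, N (i + j))) := fun j =>
        ⟨_, fun _ => h3 _, fun U hU => (tendsto_add_atTop_nat j).eventually (h4 U hU), rfl⟩
      have t3 : ∀ U ∈ 𝓝 (y, z), ∀ᶠ j in atTop, M j ×ˢ insert z (⋃ i, N (i + j)) ⊆ U ∧
          insert y (⋃ i, M (i + j)) ×ˢ N j ⊆ U := fun U hU => by
        obtain ⟨V, v, W, w, h⟩ := mem_nhds_prod_iff.1 hU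
        obtain ⟨J, hJ⟩ := eventually_atTop.1 ((h2 V v).and (h4 W w))
        exact eventually_atTop.2 ⟨J, fun j hj => ⟨(prod_mono (hJ j hj).1 (insert_subset (mem_of_mem_nhds w)
          (iUnion_subset fun i => (hJ _ (le_add_left hj)).2))).trans h, (prod_mono (insert_subset
            (mem_of_mem_nhds v) (iUnion_subset fun i => (hJ _ (le_add_left hj)).1)) (hJ j hj).2).trans h⟩⟩
      refine (congrArg (Q _ _) ?_).mpr (Q.union (n := a + 1 + c) (y := (y, z)) ⟨_, fun j => (h1 j).elim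
        fun _ h => ⟨_, (iha _ h (t2 j)).le (by omega)⟩, fun U hU => (t3 U hU).mono fun _ h => h.1, rfl⟩
        ⟨_, fun j => (h3 j).elim fun _ h => ⟨_, ihc (t1 j) h⟩, fun U hU => (t3 U hU).mono fun _ h => h.2,
          rfl⟩)
      ext ⟨p, q⟩
      simp only [mem_prod, mem_insert_iff, mem_iUnion, mem_union, Prod.mk.injEq]
      refine ⟨?_, ?_⟩
      · rintro ⟨h | ⟨i, hi⟩, h' | ⟨j, hj⟩⟩
        exacts [.inl (.inl ⟨h, h'⟩), .inr (.inr ⟨j, .inl h, hj⟩), .inl (.inr ⟨i, hi, .inl h'⟩),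
          (le_total i j).imp (fun h => .inr ⟨i, hi, .inr ⟨j - i, by rwa [Nat.sub_add_cancel h]⟩⟩)
            fun h => .inr ⟨j, .inr ⟨i - j, by rwa [Nat.sub_add_cancel h]⟩, hj⟩]
      · rintro ((h | ⟨i, h, h' | ⟨j, h'⟩⟩) | h | ⟨i, h | ⟨j, h⟩, h'⟩)
        exacts [⟨.inl h.1, .inl h.2⟩, ⟨.inr ⟨_, h⟩, .inl h'⟩, ⟨.inr ⟨_, h⟩, .inr ⟨_, h'⟩⟩,
          ⟨.inl h.1, .inl h.2⟩, ⟨.inl h, .inr ⟨_, h'⟩⟩, ⟨.inr ⟨_, h⟩, .inr ⟨_, h'⟩⟩]

lemma Q.ioc (n : ℕ) : ∀ γ : Ordinal.{0}, Q n (γ + ω ^ n) (Ioc γ (γ + ω ^ n)) := by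
  induction n with
  | zero =>
    exact fun γ => eq_singleton_iff_unique_mem.2 ⟨⟨lt_add_of_pos_right _ (pos _), le_rfl⟩, fun x hx =>
      le_antisymm hx.2 (by simpa using Order.add_one_le_of_lt hx.1)⟩
  | succ n ih =>
    refine fun γ => ⟨fun j => Ioc (b γ n j) (b γ n j + ω ^ n), fun j => ⟨_, ih _⟩, fun U hU => ?_,
      subset_antisymm (fun x hx => hx.2.eq_or_lt.imp_right fun h => mem_iUnion.2 (mem_b hx.1 h))
        (insert_subset ⟨lt_add_of_pos_right _ (pos _), le_rfl⟩ (iUnion_subset fun j =>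
          (b_sub γ n j).trans Ioo_subset_Ioc_self))⟩
    obtain ⟨J, hJ⟩ := near hU
    exact eventually_atTop.2 ⟨J, fun j hj x hx => hJ ⟨((b_mono γ n).monotone hj).trans_lt hx.1,
      (b_sub γ n j hx).2.le⟩⟩

lemma Q.param {n : ℕ} : ∀ {y : Y} {L : Set Y}, Q n y L → ∀ γ : Ordinal.{0}, ∃ φ : Ordinal.{0} → Y,
    ContinuousOn φ (Ioc γ (γ + ω ^ n)) ∧ φ '' Ioc γ (γ + ω ^ n) = L := by
  classical
  induction n with
  | zero =>
    rintro y _ rfl γ
    exact ⟨fun _ => y, continuousOn_const, (nonempty_Ioc.2 (lt_add_of_pos_right _ (pos _))).image_const y⟩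
  | succ n ih =>
    rintro y _ ⟨M, h1, h2, rfl⟩ γ
    choose z hz using h1
    choose ψ p1 p2 using fun j => ih (hz j) (b γ n j)
    obtain ⟨φ, f1, f2⟩ : ∃ φ : Ordinal.{0} → Y, φ (γ + ω ^ (n + 1)) = y ∧
        ∀ j, EqOn φ (ψ j) (Ioc (b γ n j) (b γ n j + ω ^ n)) :=
      ⟨fun x => if h : ∃ j, x ∈ Ioc (b γ n j) (b γ n j + ω ^ n) then ψ h.choose x else y,
        dif_neg fun ⟨j, hj⟩ => (b_sub γ n j hj).2.false, fun j x hx => (dif_pos ⟨j, hx⟩).trans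
          (congrArg (ψ · x) (b_disj (Exists.choose_spec (⟨j, hx⟩ :
            ∃ j, x ∈ Ioc (b γ n j) (b γ n j + ω ^ n))) hx))⟩
    have f3 : ∀ j, φ '' Ioc (b γ n j) (b γ n j + ω ^ n) = M j := fun j => (f2 j).image_eq.trans (p2 j)
    refine ⟨φ, fun x hx => ?_, subset_antisymm ?_ (insert_subset ⟨_, ⟨lt_add_of_pos_right _ (pos _),
      le_rfl⟩, f1⟩ (iUnion_subset fun j => f3 j ▸ image_mono ((b_sub γ n j).trans Ioo_subset_Ioc_self)))⟩
    · rcases hx.2.eq_or_lt with rfl | h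
      · refine fun U hU => ?_
        rw [f1] at hU
        obtain ⟨J, hJ⟩ := eventually_atTop.1 (h2 U hU)
        rw [mem_map]
        filter_upwards [self_mem_nhdsWithin, mem_nhdsWithin_of_mem_nhds (Ioi_mem_nhds (b_lt γ n J))]
          with x h3 h4
        rcases h3.2.eq_or_lt with rfl | h
        · exact f1.symm.subst (motive := (· ∈ U)) (mem_of_mem_nhds hU)
        obtain ⟨j, hj⟩ := mem_b h3.1 h
        exact hJ j (Nat.le_of_lt_succ ((b_mono γ n).lt_iff_lt.1 (b_succ γ n j ▸ lt_of_lt_of_le h4 hj.2)))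
          (f3 j ▸ mem_image_of_mem _ hj)
      · obtain ⟨j, hj⟩ := mem_b hx.1 h
        exact (((p1 j).congr (f2 j)).continuousAt ((clopen _ _).isOpen.mem_nhds hj)).continuousWithinAt
    · rintro _ ⟨x, hx, rfl⟩
      rcases hx.2.eq_or_lt with rfl | h
      · exact .inl f1
      obtain ⟨j, hj⟩ := mem_b hx.1 h
      exact .inr (mem_iUnion.2 ⟨j, f3 j ▸ mem_image_of_mem _ hj⟩)

variable [AddCommGroup Y] [IsTopologicalAddGroup Y]

lemma Q.skel (c a : ℕ) : ∀ {y : Y} {L : Set Y}, Q (c + 1 + a) y L → ∃ L₀ M, Q a y L₀ ∧ L₀ ⊆ L ∧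
    Q (c + 1) 0 M ∧ M ⊆ image2 (· - ·) L L ∧ L ⊆ image2 (· + ·) L₀ M := by
  induction a with
  | zero =>
    exact fun {y L} h => ⟨{y}, (· - y) '' L, rfl, singleton_subset_iff.2 h.mem, sub_self y ▸ h.image
      (continuous_sub_right y), image_subset_iff.2 fun x hx => ⟨x, hx, y, h.mem, rfl⟩,
      fun x hx => ⟨y, rfl, _, ⟨x, hx, rfl⟩, add_sub_cancel y x⟩⟩
  | succ a ih =>
    rintro y _ ⟨N, h1, h2, rfl⟩
    choose z hz using h1
    choose L₀ M a1 a2 a3 a4 a5 using fun j => ih (hz j)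
    refine ⟨_, _, ⟨L₀, fun j => ⟨_, a1 j⟩, fun U hU => (h2 U hU).mono fun j => (a2 j).trans, rfl⟩,
      insert_subset_insert (iUnion_mono a2), Q.iUnion M a3 fun U hU => ?_, insert_subset
        ⟨y, .inl rfl, y, .inl rfl, sub_self y⟩ (iUnion_subset fun j => (a4 j).trans (image2_subset
          ((subset_iUnion N j).trans (subset_insert _ _)) ((subset_iUnion N j).trans (subset_insert _ _)))),
      insert_subset ⟨y, .inl rfl, 0, .inl rfl, add_zero y⟩ (iUnion_subset fun j => (a5 j).trans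
        (image2_subset ((subset_iUnion _ j).trans (subset_insert _ _))
          ((subset_iUnion _ j).trans (subset_insert _ _))))⟩
    obtain ⟨V, v, W, w, h⟩ := mem_nhds_prod_iff.1 (continuous_sub.tendsto (y, y) (sub_self y ▸ hU))
    refine mem_cofinite.1 (Nat.cofinite_eq_atTop ▸ ((h2 V v).and (h2 W w)).mono fun j hj =>
      (a4 j).trans ?_)
    rintro _ ⟨p, hp, q, hq, rfl⟩
    exact h (mk_mem_prod (hj.1 hp) (hj.2 hq))

lemma Q.net (c k : ℕ) : ∀ {y : Y} {L : Set Y}, Q ((c + 1) * k) y L → ∃ M, Q (c + 1) 0 M ∧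
    M ⊆ image2 (· - ·) L L ∧ ∀ (φ : Y →+ ℝ) (r : ℝ), (∀ m ∈ M, |φ m| ≤ r) →
      ∀ x ∈ L, |φ x| ≤ |φ y| + k * r := by
  induction k with
  | zero =>
    rintro y _ rfl
    exact ⟨{0}, Q.single _ _, by simp, by simp⟩
  | succ k ih =>
    intro y L h
    obtain ⟨L₀, M, a1, a2, a3, a4, a5⟩ := Q.skel c _ (h.le (Nat.mul_succ _ _ ▸ add_comm _ _).le)
    obtain ⟨M', b1, b2, b3⟩ := ih a1
    refine ⟨M ∪ M', a3.union b1, union_subset a4 (b2.trans (image2_subset a2 a2)), fun φ r H x hx => ?_⟩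
    obtain ⟨p, hp, m, hm, rfl⟩ := a5 hx
    rw [map_add]
    push_cast
    linarith [abs_add_le (φ p) (φ m), b3 φ r (fun m hm => H m (.inr hm)) p hp, H m (.inl hm)]

end

theorem result : ∃ C : ℝ, 1 ≤ C ∧ ∀ α : ℕ, 3 ≤ α →
    ∃ T : C(K α, ℝ) →ₗᵢ[ℝ] C(K α, ℝ), SPR C (range T) := by
  refine ⟨30, by norm_num, fun α hα => ?_⟩
  obtain ⟨n, c, rfl, h1, h2⟩ : ∃ n c, α = n + 1 ∧ n + 1 ≤ (c + 1) * 4 ∧ c + 1 + (c + 1) ≤ n :=
    ⟨α - 1, (α - 3) / 2, by omega, by omega, by omega⟩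
  have h0 : (1 : Ordinal.{0}) ≤ ω ^ (n + 1) := Order.one_le_iff_pos.2 (pos _)
  let δ : Ordinal.{0} → WeakDual ℝ C(K (n + 1), ℝ) := fun x =>
    ContinuousMap.evalCLM ℝ (projIcc 1 _ h0 x)
  have hL := (Q.ioc (n + 1) 0).image (φ := δ) (WeakDual.continuous_of_continuous_eval fun f =>
    f.continuous.comp continuous_projIcc)
  obtain ⟨M, m1, m2, m3⟩ := Q.net c 4 (hL.le h1)
  obtain ⟨N, hN', hN⟩ : ∃ N, ((1 / 2 : ℝ) • ·) '' M ∪ {δ (0 + ω ^ (n + 1))} = N ∧ Q (c + 1) _ N :=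
    ⟨_, rfl, (m1.image (continuous_const_smul (1 / 2 : ℝ))).add (Q.single c _)⟩
  obtain ⟨φ, f1, f2⟩ := (hL.add (((Q.prod _ _ hN hN).image (φ := fun p => (1 / 2 : ℝ) • (p.1 + p.2))
    (by fun_prop)).le h2)).param 0
  have e : ∀ x : K (n + 1), x.1 ∈ Ioc 0 (0 + ω ^ (n + 1)) := fun x =>
    ⟨one_pos.trans_le x.2.1, by simpa using x.2.2⟩
  have g0 : ∀ x f, |δ x f| ≤ ‖f‖ := fun x f => f.norm_coe_le_norm _
  have g1 : ∀ ν ∈ N, ∀ f, |ν f| ≤ ‖f‖ := by
    subst hN'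
    rintro _ (⟨_, hm, rfl⟩ | rfl) f
    · obtain ⟨_, ⟨x, -, rfl⟩, _, ⟨y, -, rfl⟩, rfl⟩ := m2 hm
      change |1 / 2 * (δ x f - δ y f)| ≤ _
      rw [abs_mul, abs_of_pos one_half_pos]
      linarith [abs_sub (δ x f) (δ y f), g0 x f, g0 y f]
    · exact g0 _ f
  have g2 : ∀ f, ∃ ν ∈ N, ‖f‖ / 10 ≤ |ν f| := fun f => by
    by_contra! H
    have a0 := (abs_nonneg _).trans_lt (H _ hN.mem)
    have := (ContinuousMap.norm_le f (by positivity)).2 fun x => (congrArg (|f ·|)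
      (projIcc_val h0 x)).ge.trans ((m3 ⟨⟨(· f), rfl⟩, fun _ _ => rfl⟩ (‖f‖ / 5) (fun m hm => by
        have : |1 / 2 * m f| < _ := H _ (hN'.le (.inl ⟨m, hm, rfl⟩))
        rw [abs_mul, abs_of_pos one_half_pos] at this
        exact le_of_lt (by linarith : |m f| < _)) _ ⟨_, e x, rfl⟩).trans (add_le_add_left
          (H _ (hN'.le (.inr rfl))).le _))
    push_cast at this
    linarith
  have g3 : ∀ μ ∈ N, ∀ ν ∈ N, ∃ x : K (n + 1), ∀ f, φ x f = 1 / 2 * (μ f + ν f) := fun μ hμ ν hν => by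
    obtain ⟨x, hx, h⟩ := f2.ge (.inr ⟨(μ, ν), ⟨hμ, hν⟩, rfl⟩)
    exact ⟨⟨x, Order.one_le_iff_pos.2 hx.1, by simpa using hx.2⟩, fun f => by rw [h]; rfl⟩
  let T : C(K (n + 1), ℝ) →ₗ[ℝ] C(K (n + 1), ℝ) :=
    { toFun := fun f => ⟨fun x => φ x f, (WeakDual.eval_continuous f).comp
        (f1.comp_continuous continuous_subtype_val e)⟩
      map_add' := fun f g => ContinuousMap.ext fun x => map_add (φ x) f g
      map_smul' := fun a f => ContinuousMap.ext fun x => map_smul (φ x) a f }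
  have hT : ∀ f, ‖T f‖ = ‖f‖ := fun f => le_antisymm ((ContinuousMap.norm_le _ (norm_nonneg f)).2
    fun x => by
      change |φ x f| ≤ _
      obtain ⟨y, -, h⟩ | ⟨p, hp, h⟩ := f2.le ⟨_, e x, rfl⟩ <;> rw [← h]
      · exact g0 y f
      · change |1 / 2 * (p.1 f + p.2 f)| ≤ _
        rw [abs_mul, abs_of_pos one_half_pos]
        linarith [abs_add_le (p.1 f) (p.2 f), g1 _ hp.1 f, g1 _ hp.2 f])
    ((ContinuousMap.norm_le _ (norm_nonneg _)).2 fun x => by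
      obtain ⟨y, hy, h⟩ := f2.ge (.inl ⟨_, e x, rfl⟩)
      refine le_trans (le_of_eq ?_) ((T f).norm_coe_le_norm ⟨y, Order.one_le_iff_pos.2 hy.1,
        by simpa using hy.2⟩)
      change _ = ‖φ y f‖
      rw [h]
      exact congrArg (‖f ·‖) (projIcc_val h0 x).symm)
  refine ⟨⟨T, hT⟩, ?_⟩
  rintro _ ⟨f, rfl⟩ _ ⟨g, rfl⟩
  rw [← map_sub, ← map_add, LinearIsometry.norm_map, LinearIsometry.norm_map]
  obtain ⟨μ, a1, a2⟩ := g2 (f + g)
  obtain ⟨ν, b1, b2⟩ := g2 (f - g)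
  have k : ∀ x : K (n + 1), min |φ x (f + g)| |φ x (f - g)| ≤ ‖|T f| - |T g|‖ := fun x => by
    refine le_trans (le_of_eq ?_) (ContinuousMap.norm_coe_le_norm _ x)
    have := abs_id (φ x f + φ x g) (φ x f - φ x g)
    rw [add_add_sub_cancel, add_sub_sub_cancel, ← two_mul, ← two_mul, abs_mul, abs_mul, abs_two,
      ← _root_.mul_sub, abs_mul, abs_two, mul_right_inj' two_ne_zero] at this
    rw [map_add, map_sub, ← this]
    rfl
  have k1 := min_le_left ‖f - g‖ ‖f + g‖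
  have k2 := min_le_right ‖f - g‖ ‖f + g‖
  change _ ≤ 30 * ‖|T f| - |T g|‖
  generalize min ‖f - g‖ ‖f + g‖ = m at k1 k2
  by_contra! H
  obtain ⟨x, hx⟩ := g3 μ a1 μ a1
  obtain ⟨y, hy⟩ := g3 ν b1 ν b1
  obtain ⟨z, hz⟩ := g3 μ a1 ν b1
  have c1 := k x
  have c2 := k y
  have c3 := k z
  simp only [hx, hy, hz, ← two_mul, ← mul_assoc, one_div_mul_cancel (two_ne_zero' ℝ), one_mul,
    min_le_iff, abs_mul, abs_of_pos (one_half_pos (α := ℝ))] at c1 c2 c3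
  have d1 := abs_sub_abs_le_abs_add (μ (f + g)) (ν (f + g))
  have d2 := abs_sub_abs_le_abs_add (ν (f - g)) (μ (f - g))
  rw [add_comm (ν _)] at d2
  have d3 := norm_nonneg (|T f| - |T g|)
  rcases c1 with c1 | c1 <;> rcases c2 with c2 | c2 <;> rcases c3 with c3 | c3 <;> linarith

end Pool.Agent.Results.MP_6ed805_an.Proof
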